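import Mathlib

set_option autoImplicit false

/-! Colourings of sparse graphs and labellings composed of a vertex colouring and an edge
colouring. -/

namespace Pool.Agent.X73.HYS

/-- a graph of maximum average degree at most `a` is `⌊a⌋ + 1`-colourable -/
theorem col_of_mad {V : Type} [Fintype V] (G : SimpleGraph V) (a : ℝ)
    (hmad : ∀ X : Finset V,
      ({e : V × V | e.1 ∈ X ∧ e.2 ∈ X ∧ G.Adj e.1 e.2}.ncard : ℝ) ≤ a * X.card) :
    G.Colorable (⌊a⌋₊ + 1) := by
  classical
  -- a vertex of small degree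
  have hv : ∀ X : Finset V, X.Nonempty → ∃ v ∈ X, (X.filter fun u => G.Adj v u).card ≤ ⌊a⌋₊ := by
    intro X hX
    by_contra hcon
    push Not at hcon
    have h1 : ({e : V × V | e.1 ∈ X ∧ e.2 ∈ X ∧ G.Adj e.1 e.2}.ncard) =
        ∑ v ∈ X, (X.filter fun u => G.Adj v u).card := by
      have h2 : {e : V × V | e.1 ∈ X ∧ e.2 ∈ X ∧ G.Adj e.1 e.2} =
          ((X.sigma fun v => X.filter fun u => G.Adj v u).map
            (⟨fun s : (_ : V) × V => (s.1, s.2), by
              rintro ⟨x, y⟩ ⟨x', y'⟩ h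
              simp only [Prod.mk.injEq] at h
              obtain ⟨rfl, rfl⟩ := h
              rfl⟩ : ((_ : V) × V) ↪ V × V) : Finset (V × V)) := by
        ext ⟨x, y⟩
        simp only [Set.mem_setOf_eq, Finset.coe_map, Set.mem_image, Finset.mem_coe,
          Finset.mem_sigma, Finset.mem_filter]
        constructor
        · rintro ⟨h1, h2, h3⟩
          exact ⟨⟨x, y⟩, ⟨h1, h2, h3⟩, rfl⟩
        · rintro ⟨⟨x', y'⟩, ⟨h1, h2, h3⟩, h4⟩
          have h5 : (x', y') = (x, y) := h4
          rw [Prod.mk.injEq] at h5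
          obtain ⟨rfl, rfl⟩ := h5
          exact ⟨h1, h2, h3⟩
      rw [h2, Set.ncard_coe_finset, Finset.card_map, Finset.card_sigma]
    have h3 := hmad X
    rw [h1] at h3
    have h4 : (∑ v ∈ X, (⌊a⌋₊ + 1)) ≤ ∑ v ∈ X, (X.filter fun u => G.Adj v u).card :=
      Finset.sum_le_sum fun v hv => hcon v hv
    rw [Finset.sum_const, smul_eq_mul] at h4
    have h5 : ((X.card * (⌊a⌋₊ + 1) : ℕ) : ℝ) ≤ a * X.card := le_trans (by exact_mod_cast h4) h3
    push_cast at h5
    have h6 : a < ⌊a⌋₊ + 1 := Nat.lt_floor_add_one a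
    have h7 : (0 : ℝ) < X.card := by exact_mod_cast hX.card_pos
    nlinarith
  -- induction
  have key : ∀ n : ℕ, ∀ X : Finset V, X.card = n → ∃ c : V → ℕ, (∀ v ∈ X, c v < ⌊a⌋₊ + 1) ∧
      ∀ u ∈ X, ∀ v ∈ X, G.Adj u v → c u ≠ c v := by
    intro n
    induction n with
    | zero =>
      intro X hX
      rw [Finset.card_eq_zero] at hX
      subst hX
      exact ⟨fun _ => 0, by simp, by simp⟩
    | succ n ih =>
      intro X hX
      obtain ⟨v, hvX, hvd⟩ := hv X (Finset.card_pos.1 (by omega))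
      obtain ⟨c, h1, h2⟩ := ih (X.erase v) (by rw [Finset.card_erase_of_mem hvX, hX]; rfl)
      have h3 : ∃ t ∈ Finset.range (⌊a⌋₊ + 1), t ∉ (X.filter fun u => G.Adj v u).image c := by
        by_contra hcon
        push Not at hcon
        have h4 := Finset.card_le_card (show Finset.range (⌊a⌋₊ + 1) ⊆
          (X.filter fun u => G.Adj v u).image c from fun t ht => hcon t ht)
        rw [Finset.card_range] at h4
        have h5 := Finset.card_image_le (s := X.filter fun u => G.Adj v u) (f := c)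
        omega
      obtain ⟨t, ht, ht'⟩ := h3
      refine ⟨Function.update c v t, ?_, ?_⟩
      · intro u hu
        by_cases huv : u = v
        · subst huv
          rw [Function.update_self]
          exact Finset.mem_range.1 ht
        · rw [Function.update_of_ne huv]
          exact h1 u (Finset.mem_erase.2 ⟨huv, hu⟩)
      · intro u hu w hw huw
        by_cases huv : u = v
        · subst huv
          have hwv : w ≠ u := huw.ne'
          rw [Function.update_self, Function.update_of_ne hwv]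
          intro h
          exact ht' (Finset.mem_image.2 ⟨w, Finset.mem_filter.2 ⟨hw, huw⟩, h.symm⟩)
        · by_cases hwv : w = v
          · subst hwv
            rw [Function.update_self, Function.update_of_ne huv]
            intro h
            exact ht' (Finset.mem_image.2 ⟨u, Finset.mem_filter.2 ⟨hu, huw.symm⟩, h⟩)
          · rw [Function.update_of_ne huv, Function.update_of_ne hwv]
            exact h2 u (Finset.mem_erase.2 ⟨huv, hu⟩) w (Finset.mem_erase.2 ⟨hwv, hw⟩) huw
  obtain ⟨c, h1, h2⟩ := key _ Finset.univ rfl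
  exact ⟨SimpleGraph.Coloring.mk (fun v => (⟨c v, h1 v (Finset.mem_univ _)⟩ : Fin (⌊a⌋₊ + 1)))
    (fun {u v} h he => h2 u (Finset.mem_univ _) v (Finset.mem_univ _) h
      (congrArg Fin.val he))⟩

/-- a vertex colouring with `k ≤ p` colours and an edge colouring with `D` colours give a
labelling of span `D + 2 p - 2` -/
theorem prod_lab {V : Type} (G : SimpleGraph V) (D k p : ℕ) (hp : 1 ≤ p)
    (hk : G.Colorable k) (hkp : k ≤ p)
    (f : G.edgeSet → ℕ) (hf1 : ∀ e, f e < D)
    (hf2 : ∀ e e', G.lineGraph.Adj e e' → f e ≠ f e') :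
    ∃ (fV : V → ℕ) (fE : Sym2 V → ℕ),
      (∀ v : V, fV v ≤ D + 2 * p - 2) ∧
      (∀ e ∈ G.edgeSet, fE e ≤ D + 2 * p - 2) ∧
      (∀ u v : V, G.Adj u v → fV u ≠ fV v) ∧
      (∀ u v : V, G.Adj u v → (p : ℤ) ≤ |(fV u : ℤ) - (fE s(u, v) : ℤ)|) ∧
      (∀ u v w : V, G.Adj u v → G.Adj u w → v ≠ w → fE s(u, v) ≠ fE s(u, w)) := by
  classical
  obtain ⟨c⟩ := hk
  refine ⟨fun v => (c v : ℕ), fun e => if h : e ∈ G.edgeSet then f ⟨e, h⟩ + (2 * p - 1) else 0,
    ?_, ?_, ?_, ?_, ?_⟩
  · intro v
    have := (c v).2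
    show (c v : ℕ) ≤ _
    omega
  · intro e he
    have := hf1 ⟨e, he⟩
    simp only
    rw [dif_pos he]
    omega
  · intro u v huv h
    exact c.valid huv (Fin.ext h)
  · intro u v huv
    have he : s(u, v) ∈ G.edgeSet := huv
    simp only
    rw [dif_pos he, le_abs]
    have := (c u).2
    right
    omega
  · intro u v w huv huw hvw
    have he : s(u, v) ∈ G.edgeSet := huv
    have he' : s(u, w) ∈ G.edgeSet := huw
    simp only
    rw [dif_pos he, dif_pos he']
    intro h
    have h2 : f ⟨s(u, v), he⟩ = f ⟨s(u, w), he'⟩ := by omega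
    refine hf2 _ _ ?_ h2
    rw [SimpleGraph.lineGraph_adj_iff_exists]
    refine ⟨?_, u, Sym2.mem_mk_left u v, Sym2.mem_mk_left u w⟩
    intro h3
    have h6 := congrArg Subtype.val h3
    simp only at h6
    rcases Sym2.eq_iff.1 h6 with ⟨_, h7⟩ | ⟨h7, h8⟩
    · exact hvw h7
    · exact hvw (h8.trans h7)

end Pool.Agent.X73.HYS
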